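import Mathlib
open Polynomial IsLocalRing

namespace Pool.Agent.Results.MP_f322fd_al.MixedCharCounterexample

/-- A Noetherian local ring whose maximal ideal is generated by one non-nilpotent element is a domain. -/
theorem isDomain_of_principal {R : Type*} [CommRing R] [IsLocalRing R] [IsNoetherianRing R] (t : R)
    (ht : maximalIdeal R = Ideal.span {t}) (hnil : ¬ IsNilpotent t) : IsDomain R := by
  have hrep : ∀ x : R, x ≠ 0 → ∃ (n : ℕ) (u : R), IsUnit u ∧ x = t ^ n * u := by
    intro x hx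
    have hinf : (⨅ i : ℕ, (maximalIdeal R) ^ i) = ⊥ :=
      Ideal.iInf_pow_eq_bot_of_isLocalRing _ (Ideal.IsPrime.ne_top')
    have hex : ∃ n : ℕ, x ∉ (maximalIdeal R) ^ n := by
      by_contra hcon
      push Not at hcon
      have : x ∈ (⨅ i : ℕ, (maximalIdeal R) ^ i) := by
        rw [Ideal.mem_iInf]
        exact hcon
      rw [hinf] at this
      exact hx this
    classical
    have h1 := Nat.find_spec hex
    have h0 : Nat.find hex ≠ 0 := by
      intro h
      rw [h] at h1
      simp at h1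
    obtain ⟨n, hn⟩ := Nat.exists_eq_succ_of_ne_zero h0
    have h2 : x ∈ (maximalIdeal R) ^ n := by
      by_contra hcon
      have := Nat.find_min' hex hcon
      omega
    rw [ht, Ideal.span_singleton_pow, Ideal.mem_span_singleton] at h2
    obtain ⟨u, hu⟩ := h2
    refine ⟨n, u, ?_, hu⟩
    by_contra hunit
    have h3 : u ∈ maximalIdeal R := (mem_maximalIdeal u).mpr hunit
    rw [ht, Ideal.mem_span_singleton] at h3
    obtain ⟨v, hv⟩ := h3
    apply h1
    rw [hn, ht, Ideal.span_singleton_pow, Ideal.mem_span_singleton]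
    exact ⟨v, by rw [hu, hv, pow_succ, mul_assoc]⟩
  have : NoZeroDivisors R := by
    refine ⟨?_⟩
    intro a b hab
    by_contra hcon
    push Not at hcon
    obtain ⟨n, u, hu, hau⟩ := hrep a hcon.1
    obtain ⟨m, v, hv, hbv⟩ := hrep b hcon.2
    apply hnil
    refine ⟨n + m, ?_⟩
    have : t ^ (n + m) * (u * v) = 0 := by
      rw [← hab, hau, hbv, pow_add]
      ring
    exact (hu.mul hv).mul_left_eq_zero.mp this
  exact NoZeroDivisors.to_isDomain R

theorem pid_of_principal {R : Type*} [CommRing R] [IsLocalRing R] [IsNoetherianRing R] (t : R)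
    (ht : maximalIdeal R = Ideal.span {t}) (hnil : ¬ IsNilpotent t) :
    IsPrincipalIdealRing R := by
  have := isDomain_of_principal t ht hnil
  have h : (maximalIdeal R).IsPrincipal := ⟨⟨t, ht⟩⟩
  exact ((tfae_of_isNoetherianRing_of_isLocalRing_of_isDomain R).out 4 0 rfl rfl).mp h

/-- The defining polynomial of `B` over `A`. -/
noncomputable def G {A : Type*} [CommRing A] (p : ℕ) (ϖ y : A) : A[X] :=
  X ^ p + ((∑ j ∈ Finset.Ico 1 p, C (((p.choose j / p : ℕ) : A) * ϖ ^ (j - 1) * y ^ (p - j)) * X ^ j)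
    - C ϖ)

theorem G_monic {A : Type*} [CommRing A] (p : ℕ) (hp : p.Prime) (ϖ y : A) :
    (G p ϖ y).Monic := by
  unfold G
  apply monic_X_pow_add
  refine lt_of_le_of_lt (degree_sub_le _ _) (max_lt ?_ ?_)
  · rw [← mem_degreeLT]
    refine Submodule.sum_mem _ (fun j hj => ?_)
    rw [Finset.mem_Ico] at hj
    rw [mem_degreeLT]
    refine lt_of_le_of_lt (degree_C_mul_X_pow_le _ _) ?_
    exact_mod_cast hj.2
  · refine lt_of_le_of_lt degree_C_le ?_
    exact_mod_cast hp.pos

theorem G_identity {A : Type*} [CommRing A] (p : ℕ) (hp : p.Prime) (ϖ y : A)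
    (hpϖ : (p : A) = ϖ ^ (p - 1)) :
    (C ϖ * X + C y) ^ p = C (y ^ p + ϖ ^ (p + 1)) + C (ϖ ^ p) * G p ϖ y := by
  have hp1 := hp.one_lt
  have hmid : ∀ j ∈ Finset.Ico 1 p, (C ϖ * X) ^ j * (C y) ^ (p - j) * ((p.choose j : ℕ) : A[X])
      = C (ϖ ^ p) * (C (((p.choose j / p : ℕ) : A) * ϖ ^ (j - 1) * y ^ (p - j)) * X ^ j) := by
    intro j hj
    rw [Finset.mem_Ico] at hj
    have hdvd : p ∣ p.choose j := hp.dvd_choose_self (by omega) hj.2
    have h1 : ((p.choose j : ℕ) : A) = ϖ ^ (p - 1) * ((p.choose j / p : ℕ) : A) := by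
      rw [← hpϖ, ← Nat.cast_mul, Nat.mul_div_cancel' hdvd]
    have h2 : ((p.choose j : ℕ) : A[X]) = C (ϖ ^ (p - 1) * ((p.choose j / p : ℕ) : A)) := by
      rw [← h1, Polynomial.C_eq_natCast]
    rw [h2]
    have h3 : ϖ ^ j * ϖ ^ (p - 1) = ϖ ^ p * ϖ ^ (j - 1) := by
      rw [← pow_add, ← pow_add]
      congr 1
      omega
    calc (C ϖ * X) ^ j * (C y) ^ (p - j) * C (ϖ ^ (p - 1) * ((p.choose j / p : ℕ) : A))
        = C (ϖ ^ j * ϖ ^ (p - 1)) * C (y ^ (p - j) * ((p.choose j / p : ℕ) : A)) * X ^ j := by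
          simp only [C_mul, C_pow]
          ring
      _ = _ := by
          rw [h3]
          simp only [C_mul, C_pow]
          ring
  rw [add_pow, Finset.sum_range_succ, Finset.range_eq_Ico, Finset.sum_eq_sum_Ico_succ_bot hp.pos,
    Finset.sum_congr rfl hmid]
  unfold G
  rw [← Finset.mul_sum]
  simp only [pow_zero, Nat.sub_zero, Nat.choose_zero_right, Nat.cast_one, Nat.sub_self,
    Nat.choose_self, mul_one, one_mul, C_add, C_pow, C_mul]
  ring

theorem G_map {A : Type*} [CommRing A] [IsLocalRing A] (p : ℕ) (ϖ y : A)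
    (hϖ : ϖ ∈ maximalIdeal A) (hy : y ∈ maximalIdeal A) :
    (G p ϖ y).map (residue A) = X ^ p := by
  have hϖ' : residue A ϖ = 0 := (residue_eq_zero_iff ϖ).mpr hϖ
  have hy' : residue A y = 0 := (residue_eq_zero_iff y).mpr hy
  unfold G
  rw [Polynomial.map_add, Polynomial.map_sub, Polynomial.map_sum, Polynomial.map_pow, map_X, map_C,
    hϖ', map_zero, sub_zero, Finset.sum_eq_zero, add_zero]
  intro j hj
  rw [Finset.mem_Ico] at hj
  rw [Polynomial.map_mul, map_C, map_mul, map_pow _ y, hy', zero_pow (by omega), mul_zero, map_zero,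
    zero_mul]

/-- Local structure of `A[T]/(G)` when `G` is monic and congruent to `T^n` modulo the maximal ideal. -/
theorem adjoin_local {A : Type*} [CommRing A] [IsLocalRing A] (G : A[X]) (hG : G.Monic) (n : ℕ)
    (hn : 1 ≤ n) (hmap : G.map (residue A) = X ^ n) :
    ∃ _ : IsLocalRing (AdjoinRoot G), maximalIdeal (AdjoinRoot G) =
      (maximalIdeal A).map (algebraMap A (AdjoinRoot G)) ⊔ Ideal.span {AdjoinRoot.root G} := by
  classical
  set I : Ideal (AdjoinRoot G) :=
    (maximalIdeal A).map (algebraMap A (AdjoinRoot G)) ⊔ Ideal.span {AdjoinRoot.root G} with hI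
  have hfin : Module.Finite A (AdjoinRoot G) := hG.finite_adjoinRoot
  -- `root ^ n` lies in the extended maximal ideal
  have hroot : (AdjoinRoot.root G) ^ n ∈ (maximalIdeal A).map (algebraMap A (AdjoinRoot G)) := by
    have h1 : (X ^ n - G) ∈ (maximalIdeal A).map (C : A →+* A[X]) := by
      rw [Ideal.mem_map_C_iff]
      intro k
      have h2 := congrArg (fun q => coeff q k) hmap
      simp only [coeff_map] at h2
      rw [← residue_eq_zero_iff, coeff_sub, map_sub, h2]
      simp [coeff_X_pow, apply_ite (residue A)]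
    have h3 : AdjoinRoot.mk G (X ^ n - G) ∈ ((maximalIdeal A).map (C : A →+* A[X])).map (AdjoinRoot.mk G) :=
      Ideal.mem_map_of_mem _ h1
    rw [Ideal.map_map] at h3
    have h4 : AdjoinRoot.mk G (X ^ n - G) = (AdjoinRoot.root G) ^ n := by
      rw [map_sub, AdjoinRoot.mk_self, sub_zero, map_pow, AdjoinRoot.mk_X]
    rw [h4] at h3
    exact h3
  -- the quotient map to the residue field
  have hev : G.eval₂ (residue A) 0 = 0 := by
    rw [← eval_map, hmap]
    simp [Nat.one_le_iff_ne_zero.mp hn]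
  let f : AdjoinRoot G →+* ResidueField A := AdjoinRoot.lift (residue A) 0 hev
  have hIf : I ≤ RingHom.ker f := by
    rw [hI, sup_le_iff]
    constructor
    · rw [Ideal.map_le_iff_le_comap]
      intro a ha
      rw [Ideal.mem_comap, RingHom.mem_ker, AdjoinRoot.algebraMap_eq]
      simp only [f, AdjoinRoot.lift_of]
      exact (residue_eq_zero_iff a).mpr ha
    · rw [Ideal.span_singleton_le_iff_mem, RingHom.mem_ker]
      simp [f]
  have hIne : I ≠ ⊤ := by
    intro h
    have h1 : (1 : AdjoinRoot G) ∈ RingHom.ker f := hIf (h ▸ Submodule.mem_top)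
    rw [RingHom.mem_ker, map_one] at h1
    exact one_ne_zero h1
  have key : ∀ M : Ideal (AdjoinRoot G), M.IsMaximal → I ≤ M := by
    intro M hM
    have hc : (M.comap (algebraMap A (AdjoinRoot G))).IsMaximal :=
      Ideal.isMaximal_comap_of_isIntegral_of_isMaximal M
    have hc' : M.comap (algebraMap A (AdjoinRoot G)) = maximalIdeal A :=
      eq_maximalIdeal hc
    have h1 : (maximalIdeal A).map (algebraMap A (AdjoinRoot G)) ≤ M := by
      rw [Ideal.map_le_iff_le_comap, hc']
    rw [hI, sup_le_iff]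
    refine ⟨h1, ?_⟩
    rw [Ideal.span_singleton_le_iff_mem]
    exact hM.isPrime.mem_of_pow_mem n (h1 hroot)
  have hImax : I.IsMaximal := by
    obtain ⟨M, hM, hIM⟩ := Ideal.exists_le_maximal I hIne
    -- every element is congruent to an element of `A` modulo `I`
    have hsurj : ∀ b : AdjoinRoot G, ∃ a : A, b - algebraMap A (AdjoinRoot G) a ∈ I := by
      intro b
      obtain ⟨q, rfl⟩ := AdjoinRoot.mk_surjective b
      refine ⟨q.coeff 0, ?_⟩
      have h1 : AdjoinRoot.mk G q - algebraMap A (AdjoinRoot G) (q.coeff 0)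
          = AdjoinRoot.mk G q.divX * AdjoinRoot.root G := by
        conv_lhs => rw [← Polynomial.divX_mul_X_add q]
        simp [AdjoinRoot.algebraMap_eq]
      rw [h1]
      exact Ideal.mul_mem_left _ _ (Ideal.mem_sup_right (Ideal.mem_span_singleton_self _))
    have : M ≤ I := by
      intro b hb
      obtain ⟨a, ha⟩ := hsurj b
      have h2 : algebraMap A (AdjoinRoot G) a ∈ M := by
        have := M.sub_mem hb (hIM ha)
        simpa using this
      have hc : (M.comap (algebraMap A (AdjoinRoot G))).IsMaximal :=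
        Ideal.isMaximal_comap_of_isIntegral_of_isMaximal M
      have hc' : M.comap (algebraMap A (AdjoinRoot G)) = maximalIdeal A :=
        eq_maximalIdeal hc
      have h3 : a ∈ maximalIdeal A := by
        rw [← hc']; exact h2
      have h4 : algebraMap A (AdjoinRoot G) a ∈ I :=
        Ideal.mem_sup_left (Ideal.mem_map_of_mem _ h3)
      have := I.add_mem ha h4
      simpa using this
    rw [le_antisymm hIM this]
    exact hM
  have hloc : IsLocalRing (AdjoinRoot G) := by
    refine IsLocalRing.of_unique_max_ideal ⟨I, hImax, ?_⟩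
    intro M hM
    exact (hImax.eq_of_le hM.ne_top (key M hM)).symm
  exact ⟨hloc, (eq_maximalIdeal hImax).symm⟩


theorem root_rel {A : Type*} [CommRing A] (p : ℕ) (ϖ y : A) :
    algebraMap A (AdjoinRoot (G p ϖ y)) ϖ = AdjoinRoot.root (G p ϖ y) ^ p +
      ∑ j ∈ Finset.Ico 1 p, algebraMap A (AdjoinRoot (G p ϖ y))
        (((p.choose j / p : ℕ) : A) * ϖ ^ (j - 1) * y ^ (p - j)) *
          AdjoinRoot.root (G p ϖ y) ^ j := by
  have h0 : AdjoinRoot.mk (G p ϖ y) (X ^ p +
      ((∑ j ∈ Finset.Ico 1 p, C (((p.choose j / p : ℕ) : A) * ϖ ^ (j - 1) * y ^ (p - j)) * X ^ j)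
        - C ϖ)) = 0 := AdjoinRoot.mk_self
  have h1 : AdjoinRoot.mk (G p ϖ y) (X ^ p +
      ((∑ j ∈ Finset.Ico 1 p, C (((p.choose j / p : ℕ) : A) * ϖ ^ (j - 1) * y ^ (p - j)) * X ^ j)
        - C ϖ)) = AdjoinRoot.root (G p ϖ y) ^ p +
      ((∑ j ∈ Finset.Ico 1 p, algebraMap A (AdjoinRoot (G p ϖ y))
        (((p.choose j / p : ℕ) : A) * ϖ ^ (j - 1) * y ^ (p - j)) *
          AdjoinRoot.root (G p ϖ y) ^ j) - algebraMap A (AdjoinRoot (G p ϖ y)) ϖ) := by
    rw [map_add, map_sub, map_sum, map_pow, AdjoinRoot.mk_X, AdjoinRoot.mk_C,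
      AdjoinRoot.algebraMap_eq]
    congr 2
  rw [h1] at h0
  linear_combination (-1 : AdjoinRoot (G p ϖ y)) * h0

theorem root_pow {A : Type*} [CommRing A] (p : ℕ) (hp : p.Prime) (ϖ y : A)
    (hpϖ : (p : A) = ϖ ^ (p - 1)) :
    (algebraMap A (AdjoinRoot (G p ϖ y)) y +
      algebraMap A (AdjoinRoot (G p ϖ y)) ϖ * AdjoinRoot.root (G p ϖ y)) ^ p =
    algebraMap A (AdjoinRoot (G p ϖ y)) (y ^ p + ϖ ^ (p + 1)) := by
  have h1 := congrArg (AdjoinRoot.mk (G p ϖ y)) (G_identity p hp ϖ y hpϖ)
  rw [map_add, map_mul _ (C (ϖ ^ p)), AdjoinRoot.mk_self, mul_zero, add_zero, map_pow, map_add,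
    map_mul, AdjoinRoot.mk_X, AdjoinRoot.mk_C, AdjoinRoot.mk_C, AdjoinRoot.mk_C] at h1
  rw [AdjoinRoot.algebraMap_eq, add_comm (AdjoinRoot.of _ y)]
  exact h1

/-- `root - a` is never divisible by `y + ϖ root`. -/
theorem root_not_mem {A : Type*} [CommRing A] [IsLocalRing A] (p : ℕ) (hp : p.Prime) (ϖ y : A)
    (hϖ : ϖ ∈ maximalIdeal A) (hy : y ∈ maximalIdeal A) (c : A) :
    AdjoinRoot.root (G p ϖ y) - algebraMap A (AdjoinRoot (G p ϖ y)) c ∉
      Ideal.span {algebraMap A (AdjoinRoot (G p ϖ y)) y +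
      algebraMap A (AdjoinRoot (G p ϖ y)) ϖ * AdjoinRoot.root (G p ϖ y)} := by
  intro hmem
  have hϖ' : residue A ϖ = 0 := (residue_eq_zero_iff ϖ).mpr hϖ
  have hy' : residue A y = 0 := (residue_eq_zero_iff y).mpr hy
  have hev : (G p ϖ y).eval₂ ((AdjoinRoot.of (X ^ p : (ResidueField A)[X])).comp (residue A))
      (AdjoinRoot.root (X ^ p : (ResidueField A)[X])) = 0 := by
    rw [← Polynomial.eval₂_map, G_map p ϖ y hϖ hy]
    exact AdjoinRoot.eval₂_root _
  let ψ : AdjoinRoot (G p ϖ y) →+* AdjoinRoot (X ^ p : (ResidueField A)[X]) :=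
    AdjoinRoot.lift _ _ hev
  have hψa : ∀ x : A, ψ (algebraMap A (AdjoinRoot (G p ϖ y)) x) =
      AdjoinRoot.of (X ^ p : (ResidueField A)[X]) (residue A x) := by
    intro x
    rw [AdjoinRoot.algebraMap_eq]
    exact AdjoinRoot.lift_of hev
  have hψr : ψ (AdjoinRoot.root (G p ϖ y)) = AdjoinRoot.root (X ^ p : (ResidueField A)[X]) :=
    AdjoinRoot.lift_root hev
  rw [Ideal.mem_span_singleton] at hmem
  obtain ⟨e, he⟩ := hmem
  have h1 := congrArg ψ he
  rw [map_sub, map_mul, map_add, map_mul, hψa, hψa, hψa, hψr, hϖ', hy', map_zero, zero_mul,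
    add_zero, zero_mul, ← AdjoinRoot.mk_X, ← AdjoinRoot.mk_C, ← map_sub,
    AdjoinRoot.mk_eq_zero] at h1
  have h2 := Polynomial.degree_le_of_dvd h1 (X_sub_C_ne_zero _)
  rw [degree_X_pow, degree_X_sub_C] at h2
  have h3 : p ≤ 1 := by exact_mod_cast h2
  have := hp.one_lt
  omega

theorem abstract_step (p : ℕ) (hp : p.Prime) (A B : Type) [CommRing A] [IsDomain A]
    [IsRegularLocalRing A] [CommRing B] [Algebra A B] [Module.Finite A B] [Module.Free A B]
    [IsLocalRing B] [IsNoetherianRing B] (ϖ y : A) (h : B)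
    (hm : maximalIdeal A = Ideal.span {ϖ, y})
    (hdim : ringKrullDim A = 2) (hF : y ^ p + ϖ ^ (p + 1) ≠ 0)
    (hmB : maximalIdeal B = (maximalIdeal A).map (algebraMap A B) ⊔ Ideal.span {h})
    (hrel : algebraMap A B ϖ = h ^ p + ∑ j ∈ Finset.Ico 1 p,
      algebraMap A B (((p.choose j / p : ℕ) : A) * ϖ ^ (j - 1) * y ^ (p - j)) * h ^ j)
    (hpow : (algebraMap A B y + algebraMap A B ϖ * h) ^ p = algebraMap A B (y ^ p + ϖ ^ (p + 1)))
    (hnm : ∀ c : A, h - algebraMap A B c ∉
      Ideal.span {algebraMap A B y + algebraMap A B ϖ * h}) :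
    IsRegularLocalRing B ∧ ∃ P : Ideal A, P.IsPrime ∧
      IsRegularLocalRing (B ⧸ (P.map (algebraMap A B)).radical) ∧
      ¬ IsRegularLocalRing (A ⧸ P) := by
  classical
  have hp1 := hp.one_lt
  have hϖm : ϖ ∈ maximalIdeal A := by rw [hm]; exact Ideal.subset_span (by simp)
  have hym : y ∈ maximalIdeal A := by rw [hm]; exact Ideal.subset_span (by simp)
  -- the maximal ideal of `B` is generated by `y` and `h`
  have hϖh : algebraMap A B ϖ ∈ Ideal.span {h} := by
    rw [hrel]
    refine Ideal.add_mem _ ?_ (Ideal.sum_mem _ (fun j hj => ?_))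
    · exact Ideal.pow_mem_of_mem _ (Ideal.mem_span_singleton_self h) p (by omega)
    · rw [Finset.mem_Ico] at hj
      exact Ideal.mul_mem_left _ _
        (Ideal.pow_mem_of_mem _ (Ideal.mem_span_singleton_self h) j (by omega))
  have hmB2 : maximalIdeal B = Ideal.span {algebraMap A B y, h} := by
    rw [hmB, hm, Ideal.map_span, Set.image_pair]
    apply le_antisymm
    · rw [sup_le_iff, Ideal.span_le, Ideal.span_le]
      constructor
      · intro x hx
        rcases hx with hx | hx
        · rw [hx]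
          exact Ideal.span_mono (by simp) hϖh
        · rw [hx]
          exact Ideal.subset_span (by simp)
      · intro x hx
        rw [hx]
        exact Ideal.subset_span (by simp)
    · rw [Ideal.span_le]
      intro x hx
      rcases hx with hx | hx
      · rw [hx]
        exact Ideal.mem_sup_left (Ideal.subset_span (by simp))
      · rw [hx]
        exact Ideal.mem_sup_right (Ideal.subset_span (by simp))
  have hBrank : (maximalIdeal B).spanFinrank ≤ 2 := by
    rw [hmB2]
    refine (Submodule.spanFinrank_span_le_ncard_of_finite (Set.toFinite _)).trans ?_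
    exact (Set.ncard_insert_le _ _).trans (by simp)
  have hBdim : (2 : WithBot ℕ∞) ≤ ringKrullDim B := by
    have hlo : (maximalIdeal B).LiesOver (maximalIdeal A) := by
      refine ⟨?_⟩
      symm
      exact eq_maximalIdeal (Ideal.isMaximal_comap_of_isIntegral_of_isMaximal (maximalIdeal B))
    have h1 := Ideal.height_eq_height_add_of_liesOver_of_hasGoingDown (maximalIdeal A)
      (maximalIdeal B)
    have h2 : (maximalIdeal A).height ≤ (maximalIdeal B).height := by
      rw [h1]; exact le_self_add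
    rw [← hdim, ← maximalIdeal_height_eq_ringKrullDim, ← maximalIdeal_height_eq_ringKrullDim]
    exact WithBot.coe_le_coe.mpr h2
  have hBreg : IsRegularLocalRing B := by
    apply IsRegularLocalRing.of_spanFinrank_maximalIdeal_le
    refine le_trans ?_ hBdim
    exact_mod_cast hBrank
  refine ⟨hBreg, ?_⟩
  set w : B := algebraMap A B y + algebraMap A B ϖ * h with hw
  set q : Ideal B := Ideal.span {w} with hq
  have hwm : w ∈ maximalIdeal B := by
    rw [hmB2, hw]
    refine Ideal.add_mem _ (Ideal.subset_span (by simp)) ?_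
    exact Ideal.mul_mem_left _ _ (Ideal.subset_span (by simp))
  have hqle : q ≤ maximalIdeal B := by
    rw [hq, Ideal.span_singleton_le_iff_mem]; exact hwm
  have hqtop : q ≠ ⊤ := fun hcon => by
    rw [hcon] at hqle
    exact Ideal.IsPrime.ne_top' (top_le_iff.mp hqle)
  have hnt : Nontrivial (B ⧸ q) := Ideal.Quotient.nontrivial_iff.mpr hqtop
  have hlocD : IsLocalRing (B ⧸ q) :=
    IsLocalRing.of_surjective' (Ideal.Quotient.mk q) Ideal.Quotient.mk_surjective
  set π : B →+* B ⧸ q := Ideal.Quotient.mk q with hπ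
  have hπw : π w = 0 := Ideal.Quotient.eq_zero_iff_mem.mpr (Ideal.mem_span_singleton_self w)
  have hπy : π (algebraMap A B y) = - (π (algebraMap A B ϖ) * π h) := by
    have := hπw
    rw [hw, map_add, map_mul] at this
    exact eq_neg_of_add_eq_zero_left this
  have hmD : maximalIdeal (B ⧸ q) = Ideal.span {π h} := by
    have h1 : maximalIdeal (B ⧸ q) = (maximalIdeal B).map π := by
      symm
      apply eq_maximalIdeal
      have := Ideal.map_eq_top_or_isMaximal_of_surjective π Ideal.Quotient.mk_surjective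
        (maximalIdeal.isMaximal B)
      rcases this with h2 | h2
      · exfalso
        have h3 := Ideal.comap_map_of_surjective' π Ideal.Quotient.mk_surjective (maximalIdeal B)
        rw [h2, Ideal.comap_top, hπ, Ideal.mk_ker, sup_eq_left.mpr hqle] at h3
        exact Ideal.IsPrime.ne_top' h3.symm
      · exact h2
    rw [h1, hmB2, Ideal.map_span, Set.image_pair]
    apply le_antisymm
    · rw [Ideal.span_le]
      intro x hx
      rcases hx with hx | hx
      · rw [hx, hπy]
        exact Submodule.neg_mem _ (Ideal.mul_mem_left _ _ (Ideal.mem_span_singleton_self _))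
      · rw [hx]
        exact Ideal.mem_span_singleton_self _
    · exact Ideal.span_mono (by simp)
  -- dimension of `B / q` is at least one
  have hDdim : (1 : WithBot ℕ∞) ≤ ringKrullDim (B ⧸ q) := by
    have h1 : ringKrullDim B ≤ ringKrullDim (B ⧸ q) + q.spanFinrank := by
      apply ringKrullDim_le_ringKrullDim_quotient_add_spanFinrank
      rw [IsLocalRing.ringJacobson_eq_maximalIdeal]
      exact hqle
    have h2 : q.spanFinrank ≤ 1 := by
      rw [hq]
      refine (Submodule.spanFinrank_span_le_ncard_of_finite (Set.toFinite _)).trans ?_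
      simp
    have h3 : (2 : WithBot ℕ∞) ≤ ringKrullDim (B ⧸ q) + 1 := by
      refine hBdim.trans (h1.trans ?_)
      gcongr
      exact_mod_cast h2
    have h4 : (1 : WithBot ℕ∞) + 1 ≤ ringKrullDim (B ⧸ q) + 1 := by
      convert h3 using 1
      norm_num
    exact ENat.WithBot.add_le_add_one_right_iff.mp h4
  -- `h` is not nilpotent in `B / q`
  have hnil : ¬ IsNilpotent (π h) := by
    intro hn
    have h1 : Ring.KrullDimLE 0 (B ⧸ q) := by
      apply Ring.KrullDimLE.mk₀
      intro I hI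
      have h2 : maximalIdeal (B ⧸ q) ≤ I := by
        rw [hmD, Ideal.span_singleton_le_iff_mem]
        obtain ⟨n, hn⟩ := hn
        exact hI.mem_of_pow_mem n (hn ▸ I.zero_mem)
      have h3 : I = maximalIdeal (B ⧸ q) := le_antisymm (le_maximalIdeal hI.ne_top) h2
      rw [h3]
      exact maximalIdeal.isMaximal _
    have h4 : ringKrullDim (B ⧸ q) ≤ (0 : ℕ) := (Ring.krullDimLE_iff).mp h1
    have h5 : (1 : WithBot ℕ∞) ≤ ((0 : ℕ) : WithBot ℕ∞) := hDdim.trans h4
    exact absurd h5 (by norm_num)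
  have hDdom : IsDomain (B ⧸ q) := isDomain_of_principal (π h) hmD hnil
  have hqprime : q.IsPrime := (Ideal.Quotient.isDomain_iff_prime q).mp hDdom
  have hDreg : IsRegularLocalRing (B ⧸ q) := by
    apply IsRegularLocalRing.of_spanFinrank_maximalIdeal_le
    refine le_trans ?_ hDdim
    rw [hmD]
    have : (Ideal.span {π h}).spanFinrank ≤ 1 := by
      refine (Submodule.spanFinrank_span_le_ncard_of_finite (Set.toFinite _)).trans ?_
      simp
    exact_mod_cast this
  set P : Ideal A := q.comap (algebraMap A B) with hP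
  have hPprime : P.IsPrime := Ideal.comap_isPrime _ _
  have hFP : y ^ p + ϖ ^ (p + 1) ∈ P := by
    rw [hP, Ideal.mem_comap, ← hpow]
    exact Ideal.pow_mem_of_mem _ (Ideal.mem_span_singleton_self w) p (by omega)
  have hrad : (P.map (algebraMap A B)).radical = q := by
    apply le_antisymm
    · rw [hqprime.radical_le_iff]
      exact Ideal.map_comap_le
    · rw [hq, Ideal.span_singleton_le_iff_mem]
      refine ⟨p, ?_⟩
      rw [hpow]
      exact Ideal.mem_map_of_mem _ hFP
  refine ⟨P, hPprime, ?_, ?_⟩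
  · rw [hrad]
    exact hDreg
  intro hreg
  -- the quotient `A / P` has dimension at most one
  have hdimR : ringKrullDim (A ⧸ P) ≤ (1 : ℕ) := by
    have h1 : ringKrullDim (A ⧸ Ideal.span {y ^ p + ϖ ^ (p + 1)}) + 1 ≤ ringKrullDim A :=
      ringKrullDim_quotient_succ_le_of_nonZeroDivisor (mem_nonZeroDivisors_of_ne_zero hF)
    have h2 : ringKrullDim (A ⧸ P) ≤ ringKrullDim (A ⧸ Ideal.span {y ^ p + ϖ ^ (p + 1)}) := by
      have h3 : Ideal.span {y ^ p + ϖ ^ (p + 1)} ≤ P := by
        rw [Ideal.span_singleton_le_iff_mem]; exact hFP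
      exact ringKrullDim_le_of_surjective (Ideal.Quotient.factor h3)
        (Ideal.Quotient.factor_surjective h3)
    have h3 : ringKrullDim (A ⧸ P) + 1 ≤ ((1 : ℕ) : WithBot ℕ∞) + 1 := by
      calc ringKrullDim (A ⧸ P) + 1
          ≤ ringKrullDim (A ⧸ Ideal.span {y ^ p + ϖ ^ (p + 1)}) + 1 := by gcongr
        _ ≤ ringKrullDim A := h1
        _ = ((1 : ℕ) : WithBot ℕ∞) + 1 := by rw [hdim]; norm_num
    exact ENat.WithBot.add_le_add_one_right_iff.mp h3
  have hprin : (maximalIdeal (A ⧸ P)).IsPrincipal := by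
    rw [← finrank_cotangentSpace_le_one_iff]
    have h1 := (IsRegularLocalRing.iff_finrank_cotangentSpace (A ⧸ P)).mp hreg
    rw [← h1] at hdimR
    exact_mod_cast hdimR
  obtain ⟨z, hz⟩ := hprin
  replace hz : maximalIdeal (A ⧸ P) = Ideal.span {z} := hz
  set ρ : A →+* A ⧸ P := Ideal.Quotient.mk P with hρ
  have hρmem : ∀ x ∈ maximalIdeal A, ρ x ∈ maximalIdeal (A ⧸ P) := by
    intro x hx
    rw [mem_maximalIdeal, mem_nonunits_iff]
    intro hu
    have hu' : IsUnit x := by
      by_contra hxn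
      have hcon : ¬ IsUnit (ρ x) := by
        intro hu2
        obtain ⟨v, hv⟩ := hu2.exists_right_inv
        obtain ⟨v', rfl⟩ := Ideal.Quotient.mk_surjective v
        have h1 : x * v' - 1 ∈ P := by
          rw [← Ideal.Quotient.eq_zero_iff_mem, map_sub, map_mul, map_one]
          exact sub_eq_zero.mpr hv
        have h2 : x * v' - 1 ∈ maximalIdeal A := le_maximalIdeal hPprime.ne_top h1
        have h3 : x * v' ∈ maximalIdeal A := Ideal.mul_mem_right _ _ hx
        have h4 : (1 : A) ∈ maximalIdeal A := by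
          have h5 := Ideal.sub_mem _ h3 h2
          rwa [sub_sub_cancel] at h5
        exact Ideal.IsPrime.ne_top' ((Ideal.eq_top_iff_one _).mpr h4)
      exact hcon hu
    exact (mem_nonunits_iff.mp ((mem_maximalIdeal x).mp hx)) hu'
  -- the induced injection `A / P → B / q`
  let φ : A ⧸ P →+* B ⧸ q := Ideal.quotientMap q (algebraMap A B) le_rfl
  have hφρ : ∀ x : A, φ (ρ x) = π (algebraMap A B x) := fun x => Ideal.quotientMap_mk
  have hϖ0 : π (algebraMap A B ϖ) ≠ 0 := by
    intro h0
    apply hnil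
    refine ⟨p, ?_⟩
    have hy0 : π (algebraMap A B y) = 0 := by rw [hπy, h0]; ring
    have h1 := congrArg π hrel
    rw [h0, map_add, map_sum, map_pow, Finset.sum_eq_zero, add_zero] at h1
    · exact h1.symm
    · intro j hj
      rw [Finset.mem_Ico] at hj
      rw [map_mul, map_mul, map_mul, map_pow _ y, map_pow _ (algebraMap A B y), hy0,
        zero_pow (by omega), mul_zero, zero_mul]
  have hzmem : z ∈ maximalIdeal (A ⧸ P) := hz ▸ Ideal.mem_span_singleton_self z
  obtain ⟨z', rfl⟩ := Ideal.Quotient.mk_surjective z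
  have hz'm : z' ∈ maximalIdeal A := by
    by_contra hcon
    have hu : IsUnit z' := by
      by_contra hnu
      exact hcon ((mem_maximalIdeal z').mpr hnu)
    exact (mem_nonunits_iff.mp ((mem_maximalIdeal _).mp hzmem)) (hu.map ρ)
  rw [hm, Ideal.mem_span_pair] at hz'm
  obtain ⟨c, d, hcd⟩ := hz'm
  have hϖR : ρ ϖ ∈ Ideal.span {ρ z'} := hz ▸ hρmem ϖ hϖm
  have hyR : ρ y ∈ Ideal.span {ρ z'} := hz ▸ hρmem y hym
  rw [Ideal.mem_span_singleton] at hϖR hyR
  obtain ⟨b, hb⟩ := hϖR
  obtain ⟨e, he⟩ := hyR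
  have hzD : φ (ρ z') = π (algebraMap A B ϖ) *
      (π (algebraMap A B c) - π h * π (algebraMap A B d)) := by
    rw [hφρ, ← hcd, map_add, map_add, map_mul, map_mul, map_mul, map_mul, hπy]
    ring
  have h1 : (π (algebraMap A B c) - π h * π (algebraMap A B d)) * φ b = 1 := by
    have h2 := congrArg φ hb
    rw [map_mul, hzD, hφρ] at h2
    have h3 : π (algebraMap A B ϖ) *
        ((π (algebraMap A B c) - π h * π (algebraMap A B d)) * φ b) =
        π (algebraMap A B ϖ) * 1 := by
      rw [mul_one, ← mul_assoc]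
      exact h2.symm
    exact mul_left_cancel₀ hϖ0 h3
  have hbunit : IsUnit b := by
    by_contra hnu
    have hbm : b ∈ maximalIdeal (A ⧸ P) := (mem_maximalIdeal b).mpr hnu
    rw [hz, Ideal.mem_span_singleton] at hbm
    obtain ⟨b', hb'⟩ := hbm
    have h2 : φ b ∈ maximalIdeal (B ⧸ q) := by
      rw [hb', map_mul, hzD, hmD]
      have h3 : π (algebraMap A B ϖ) ∈ Ideal.span {π h} := by
        obtain ⟨r, hr⟩ := Ideal.mem_span_singleton.mp hϖh
        rw [hr, map_mul]
        exact Ideal.mul_mem_right _ _ (Ideal.mem_span_singleton_self _)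
      exact Ideal.mul_mem_right _ _ (Ideal.mul_mem_right _ _ h3)
    have h3 : (1 : B ⧸ q) ∈ maximalIdeal (B ⧸ q) := by
      rw [← h1]
      exact Ideal.mul_mem_left _ _ h2
    exact Ideal.IsPrime.ne_top' ((Ideal.eq_top_iff_one _).mpr h3)
  obtain ⟨b', hb'⟩ := hbunit.exists_right_inv
  -- `h` lies in the image of `A`
  have h2 : π h = φ (-(e * b')) := by
    have h3 := congrArg φ he
    rw [map_mul, hφρ, hπy, hzD] at h3
    have h4 : π (algebraMap A B ϖ) * (- π h) =
        π (algebraMap A B ϖ) *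
          ((π (algebraMap A B c) - π h * π (algebraMap A B d)) * φ e) := by
      rw [← mul_assoc, ← h3]
      ring
    have h5 := mul_left_cancel₀ hϖ0 h4
    have h6 : φ b * φ b' = 1 := by rw [← map_mul, hb', map_one]
    rw [map_neg, map_mul]
    have h7 : - π h * φ b = φ e := by
      rw [h5]
      calc (π (algebraMap A B c) - π h * π (algebraMap A B d)) * φ e * φ b
          = ((π (algebraMap A B c) - π h * π (algebraMap A B d)) * φ b) * φ e := by ring
        _ = φ e := by rw [h1, one_mul]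
    rw [← h7]
    calc π h = π h * (φ b * φ b') := by rw [h6, mul_one]
      _ = _ := by ring
  obtain ⟨x, hx⟩ := Ideal.Quotient.mk_surjective (-(e * b'))
  apply hnm x
  rw [← Ideal.Quotient.eq_zero_iff_mem, map_sub]
  have h3 : φ (ρ x) = π (algebraMap A B x) := hφρ x
  rw [sub_eq_zero]
  change π h = π (algebraMap A B x)
  rw [← h3, h2]
  exact congrArg φ hx.symm

/-- The totally ramified extension `ℤ_p[p^(1/(p-1))]` of the `p`-adic integers. -/
theorem exists_dvr (p : ℕ) (hp : p.Prime) :
    ∃ (O : Type) (_ : CommRing O) (_ : IsDomain O) (_ : IsPrincipalIdealRing O)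
      (_ : IsLocalRing O) (_ : CharZero O) (ϖ : O),
      maximalIdeal O = Ideal.span {ϖ} ∧ (p : O) = ϖ ^ (p - 1) ∧ ¬ IsField O := by
  classical
  have : Fact p.Prime := ⟨hp⟩
  have hp1 := hp.one_lt
  set g : ℤ_[p][X] := X ^ (p - 1) - C (p : ℤ_[p]) with hg
  have hmonic : g.Monic := monic_X_pow_sub_C _ (by omega)
  have hpm : (p : ℤ_[p]) ∈ maximalIdeal ℤ_[p] := by
    rw [PadicInt.maximalIdeal_eq_span_p]
    exact Ideal.mem_span_singleton_self _
  have hres : residue ℤ_[p] (p : ℤ_[p]) = 0 := (residue_eq_zero_iff _).mpr hpm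
  have hmap : g.map (residue ℤ_[p]) = X ^ (p - 1) := by
    rw [hg, Polynomial.map_sub, Polynomial.map_pow, map_X, map_C, hres, map_zero, sub_zero]
  obtain ⟨hloc, hm⟩ := adjoin_local g hmonic (p - 1) (by omega) hmap
  have hfin : Module.Finite ℤ_[p] (AdjoinRoot g) := hmonic.finite_adjoinRoot
  have hfree : Module.Free ℤ_[p] (AdjoinRoot g) := hmonic.free_adjoinRoot
  have hinj : Function.Injective (algebraMap ℤ_[p] (AdjoinRoot g)) :=
    FaithfulSMul.algebraMap_injective ℤ_[p] (AdjoinRoot g)
  have hnoeth : IsNoetherianRing (AdjoinRoot g) := IsNoetherianRing.of_finite ℤ_[p] (AdjoinRoot g)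
  have hchar : CharZero (AdjoinRoot g) := charZero_of_injective_algebraMap hinj
  have hroot : (p : AdjoinRoot g) = AdjoinRoot.root g ^ (p - 1) := by
    have h0 : AdjoinRoot.mk g g = 0 := AdjoinRoot.mk_self
    have h1 : AdjoinRoot.mk g (X ^ (p - 1) - C (p : ℤ_[p])) = 0 := h0
    rw [map_sub, map_pow, AdjoinRoot.mk_X, AdjoinRoot.mk_C, map_natCast] at h1
    exact (sub_eq_zero.mp h1).symm
  have hm' : maximalIdeal (AdjoinRoot g) = Ideal.span {AdjoinRoot.root g} := by
    rw [hm, sup_eq_right, PadicInt.maximalIdeal_eq_span_p, Ideal.map_span, Set.image_singleton,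
      Ideal.span_singleton_le_iff_mem, map_natCast, hroot]
    exact Ideal.pow_mem_of_mem _ (Ideal.mem_span_singleton_self _) _ (by omega)
  have hnil : ¬ IsNilpotent (AdjoinRoot.root g) := by
    rintro ⟨n, hn⟩
    have h1 : ((p : AdjoinRoot g)) ^ n = 0 := by
      rw [hroot, ← pow_mul, mul_comm, pow_mul, hn, zero_pow (by omega)]
    have h2 : ((p ^ n : ℕ) : AdjoinRoot g) = 0 := by
      rw [Nat.cast_pow]; exact h1
    have h3 : p ^ n = 0 := by exact_mod_cast h2
    exact absurd h3 (pow_ne_zero n hp.ne_zero)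
  have hdom := isDomain_of_principal _ hm' hnil
  have hpid := pid_of_principal _ hm' hnil
  refine ⟨AdjoinRoot g, inferInstance, hdom, hpid, hloc, hchar, AdjoinRoot.root g, hm', hroot, ?_⟩
  intro hfield
  have h1 : maximalIdeal (AdjoinRoot g) = ⊥ := IsLocalRing.isField_iff_maximalIdeal_eq.mp hfield
  rw [hm', Ideal.span_singleton_eq_bot] at h1
  exact hnil ⟨1, by rw [pow_one, h1]⟩

/-- A regular local ring of dimension two containing a `(p-1)`-st root of `p`. -/
theorem exists_base (p : ℕ) (hp : p.Prime) :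
    ∃ (A : Type) (_ : CommRing A) (_ : IsDomain A) (_ : CharZero A)
      (_ : IsRegularLocalRing A) (ϖ y : A),
      maximalIdeal A = Ideal.span {ϖ, y} ∧ ringKrullDim A = 2 ∧ (p : A) = ϖ ^ (p - 1) ∧
      y ^ p + ϖ ^ (p + 1) ≠ 0 := by
  classical
  obtain ⟨O, _, _, _, _, _, ϖ, hmO, hpϖ, hnf⟩ := exists_dvr p hp
  let ev : O[X] →+* ResidueField O := eval₂RingHom (residue O) 0
  have hev : ∀ f : O[X], ev f = residue O (f.coeff 0) := by
    intro f
    simp only [ev, coe_eval₂RingHom, eval₂_at_zero]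
  let Q : Ideal O[X] := RingHom.ker ev
  have hQprime : Q.IsPrime := RingHom.ker_isPrime ev
  have hsurj : Function.Surjective ev := by
    intro x
    obtain ⟨c, rfl⟩ := residue_surjective x
    exact ⟨C c, by rw [hev, coeff_C_zero]⟩
  have hQmax : Q.IsMaximal := RingHom.ker_isMaximal_of_surjective ev hsurj
  have hQlo : Q.LiesOver (maximalIdeal O) := by
    refine ⟨?_⟩
    ext c
    rw [Ideal.mem_comap, RingHom.mem_ker, Polynomial.algebraMap_eq, hev, coeff_C_zero]
    exact (residue_eq_zero_iff c).symm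
  have hQspan : Q = Ideal.span {C ϖ, X} := by
    ext f
    rw [RingHom.mem_ker, hev, residue_eq_zero_iff, hmO, Ideal.mem_span_singleton,
      Ideal.mem_span_pair]
    constructor
    · rintro ⟨c, hc⟩
      refine ⟨C c, f.divX, ?_⟩
      conv_rhs => rw [← divX_mul_X_add f, hc]
      rw [C_mul]
      ring
    · rintro ⟨a, b, hab⟩
      refine ⟨a.coeff 0, ?_⟩
      rw [← hab, coeff_add, coeff_mul_C, coeff_mul_X_zero, add_zero, mul_comm]
  let A := Localization.AtPrime Q
  have hle : Q.primeCompl ≤ nonZeroDivisors O[X] := Q.primeCompl_le_nonZeroDivisors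
  have hinj : Function.Injective (algebraMap O[X] A) := IsLocalization.injective A hle
  have hdomA : IsDomain A := IsLocalization.isDomain_localization hle
  have hcharA : CharZero A := charZero_of_injective_algebraMap hinj
  have hmA : maximalIdeal A = Ideal.span {algebraMap O[X] A (C ϖ), algebraMap O[X] A X} := by
    have h1 : Ideal.map (algebraMap O[X] A) Q = maximalIdeal A :=
      Localization.AtPrime.map_eq_maximalIdeal
    have h2 : Ideal.map (algebraMap O[X] A) Q =
        Ideal.map (algebraMap O[X] A) (Ideal.span {C ϖ, X}) := congrArg _ hQspan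
    rw [← h1, h2, Ideal.map_span, Set.image_pair]
  refine ⟨A, inferInstance, hdomA, hcharA, inferInstance, algebraMap O[X] A (C ϖ),
    algebraMap O[X] A X, hmA, ?_, ?_, ?_⟩
  · have h1 : ringKrullDim A = Q.height := IsLocalization.AtPrime.ringKrullDim_eq_height Q A
    rw [h1, Polynomial.height_eq_height_add_one (maximalIdeal O) Q, WithBot.coe_add,
      IsLocalRing.maximalIdeal_height_eq_ringKrullDim,
      IsPrincipalIdealRing.ringKrullDim_eq_one O hnf]
    norm_num
  · rw [← map_pow, ← C_pow, ← hpϖ, map_natCast, map_natCast]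
  · rw [← map_pow, ← map_pow, ← map_add]
    intro h0
    have h1 := hinj (h0.trans (map_zero _).symm)
    have h2 := congrArg (fun f => coeff f p) h1
    simp only [coeff_add, coeff_X_pow, ← C_pow, coeff_C, coeff_zero,
      if_neg hp.ne_zero, add_zero] at h2
    exact one_ne_zero h2

/-- For every prime number `p` there are regular local rings `A` and `B` of characteristic zero, with
`dim A = 2` and residue characteristic `p`, an injective finite homomorphism `A → B`, and a prime
ideal `P` of `A` such that `B / rad (P B)` is a regular local ring while `A / P` is not. -/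
theorem result (p : ℕ) (hp : p.Prime) :
    ∃ (A B : Type) (_ : CommRing A) (_ : CommRing B) (_ : Algebra A B) (P : Ideal A),
      IsRegularLocalRing A ∧ IsRegularLocalRing B ∧ CharZero A ∧ CharZero B ∧
      ¬ IsUnit (p : A) ∧ ringKrullDim A = 2 ∧
      Function.Injective (algebraMap A B) ∧ Module.Finite A B ∧ P.IsPrime ∧
      IsRegularLocalRing (B ⧸ (P.map (algebraMap A B)).radical) ∧
      ¬ IsRegularLocalRing (A ⧸ P) := by
  have hp1 := hp.one_lt
  obtain ⟨A, _, _, hA0, hAreg, ϖ, y, hm, hdim, hpϖ, hF⟩ := exists_base p hp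
  have hϖm : ϖ ∈ maximalIdeal A := by rw [hm]; exact Ideal.subset_span (by simp)
  have hym : y ∈ maximalIdeal A := by rw [hm]; exact Ideal.subset_span (by simp)
  have hmonic := G_monic p hp ϖ y
  have hmap := G_map p ϖ y hϖm hym
  obtain ⟨hloc, hmB⟩ := adjoin_local (G p ϖ y) hmonic p hp.one_lt.le hmap
  have hfin : Module.Finite A (AdjoinRoot (G p ϖ y)) := hmonic.finite_adjoinRoot
  have hfree : Module.Free A (AdjoinRoot (G p ϖ y)) := hmonic.free_adjoinRoot
  have hinj : Function.Injective (algebraMap A (AdjoinRoot (G p ϖ y))) :=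
    FaithfulSMul.algebraMap_injective A (AdjoinRoot (G p ϖ y))
  have hnoeth : IsNoetherianRing (AdjoinRoot (G p ϖ y)) :=
    IsNoetherianRing.of_finite A (AdjoinRoot (G p ϖ y))
  obtain ⟨hBreg, P, hP, hD, hR⟩ := abstract_step p hp A (AdjoinRoot (G p ϖ y)) ϖ y
    (AdjoinRoot.root (G p ϖ y)) hm hdim hF hmB (root_rel p ϖ y) (root_pow p hp ϖ y hpϖ)
    (root_not_mem p hp ϖ y hϖm hym)
  refine ⟨A, AdjoinRoot (G p ϖ y), inferInstance, inferInstance, inferInstance, P, hAreg, hBreg,
    hA0, charZero_of_injective_algebraMap hinj, ?_, hdim, hinj, hfin, hP, hD, hR⟩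
  rw [hpϖ]
  have h1 : ϖ ^ (p - 1) ∈ maximalIdeal A := Ideal.pow_mem_of_mem _ hϖm _ (by omega)
  exact mem_nonunits_iff.mp ((mem_maximalIdeal _).mp h1)

end Pool.Agent.Results.MP_f322fd_al.MixedCharCounterexample
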